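import Pool.Agent.Lib.UMB.Par
import Pool.Agent.Lib.UMB.SS.Levels

set_option autoImplicit false

/-!
# UMB, assembly: notation

`mkP` the parameters with `r1 = 1 + 100 c0 / q`, `errN` the size of the errors, `BT` the window integral.
-/

open Filter Topology Set MeasureTheory
open scoped ContDiff

namespace UMB

open Pool.Agent.Lib.PenroseSph (E3 Tens pd gradNorm admFlux)

/-- The parameters with `r1 = 1 + 100 c0 / q`. -/
noncomputable def mkP (g k : Tens) (a c0 q R1 R eps d : ℝ) (eta : E3 → ℝ) : Par :=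
  ⟨g, k, a, q, 1 + 100 * c0 / q, R1, R, eps, d, eta⟩

/-- The size of the errors of `Adm`. -/
noncomputable def errN (η : E3 → ℝ) (η0 R : ℝ) : ℝ :=
  η0 + Real.sqrt (∫ x in {x : E3 | 1 ≤ ‖x‖ ∧ ‖x‖ ≤ R}, (η x) ^ 2)

/-- `∫_{s ≤ θ < t} |∇θ|^(1+q)` over the open annulus. -/
noncomputable def BT (g : Tens) (θ : E3 → ℝ) (R q s t : ℝ) : ℝ :=
  ∫ x in {x : E3 | (1 < ‖x‖ ∧ ‖x‖ < R) ∧ s ≤ θ x ∧ θ x < t}, gradNorm g θ x ^ (1 + q) * Real.sqrt (g x).det

/-- A mollifier. -/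
structure Moll (eta : E3 → ℝ) : Prop where
  smooth : ContDiff ℝ ∞ eta
  nonneg : ∀ x, 0 ≤ eta x
  supp : ∀ x : E3, 1 ≤ ‖x‖ → eta x = 0
  int : ∫ x : E3, eta x = 1

end UMB
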