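import Pool.Agent.Lib.UMB.Asm.Defs
import Pool.Agent.Lib.UMB.SS.Area2

set_option autoImplicit false

open Filter Topology Set MeasureTheory
open scoped ContDiff

namespace UMB

open Pool.Agent.Lib.PenroseSph (E3 Tens pd gradNorm admFlux)

theorem AF.toSmM {g : Tens} {a : ℝ} (hg : AF g a) : SmM g a :=
  ⟨fun i j => hg.smooth i j, hg.symm, hg.pos⟩

/-- There is an enclosing surface. -/
theorem exists_surface {g : Tens} {a : ℝ} (hg : AF g a) : ∃ (F : Set E3) (c : ℝ), Encloses F ∧ AreaLE g a F c := by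
  set θ : E3 → ℝ := fun x => ‖x‖ ^ 2 - 1 with hθ
  have hsm : ContDiff ℝ ∞ θ := (contDiff_norm_sq ℝ).sub contDiff_const
  have hL : LevFun θ 2 3 :=
    { one_lt := by norm_num
      pos := by norm_num
      cont := hsm.continuous.continuousOn
      smooth := hsm.contDiffOn
      inner := by intro x hx; simp [hθ, hx]
      outer := by intro x hx; simp only [hθ, hx]; norm_num }
  have hM := hg.toSmM
  have hcont : ContinuousOn (fun x => gradNorm g θ x * Real.sqrt (g x).det) {x : E3 | 1 ≤ ‖x‖ ∧ ‖x‖ ≤ 2} := by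
    intro x hx
    have hax : a < ‖x‖ := lt_of_lt_of_le hg.lt hx.1
    apply ContinuousAt.continuousWithinAt
    apply ContinuousAt.mul
    · unfold gradNorm
      apply ContinuousAt.sqrt
      apply tendsto_finsetSum
      intro i _
      apply tendsto_finsetSum
      intro j _
      have h1 : ContinuousAt (fun y => (g y)⁻¹ i j) x := (hM.inv hax i j).continuousAt
      have h2 : ∀ i : Fin 3, ContinuousAt (fun y => pd i θ y) x := fun i =>
        ((cont_pd (hsm.of_le (by exact_mod_cast le_top)) i)).continuousAt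
      exact (h1.mul (h2 i)).mul (h2 j)
    · apply ContinuousAt.sqrt
      have : ∀ i j, ContinuousAt (fun y => g y i j) x := fun i j =>
        ((hg.smooth i j).contDiffAt ((isOpen_lt continuous_const continuous_norm).mem_nhds hax)).continuousAt
      simp only [Matrix.det_fin_three]
      fun_prop
  have hcomp : IsCompact {x : E3 | 1 ≤ ‖x‖ ∧ ‖x‖ ≤ 2} := by
    apply Metric.isCompact_of_isClosed_isBounded (isClosed_annC 2)
    apply (Metric.isBounded_closedBall (x := (0:E3)) (r := 2)).subset
    intro x hx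
    rw [mem_closedBall_zero_iff]
    exact hx.2
  have hint : IntegrableOn (fun x => gradNorm g θ x * Real.sqrt (g x).det) {x : E3 | 1 ≤ ‖x‖ ∧ ‖x‖ ≤ 2} :=
    hcont.integrableOn_compact hcomp
  have hint2 : ∀ t, IntegrableOn (fun x => gradNorm g θ x * Real.sqrt (g x).det) (lowT θ 2 t) := fun t =>
    hint.mono_set fun x hx => ⟨hx.1.le, hx.2.1.le⟩
  have hmono : Monotone (AT g θ 2) := by
    intro s t hst
    apply setIntegral_mono_set (hint2 t)
    · apply Eventually.of_forall
      intro x
      exact mul_nonneg (Real.sqrt_nonneg _) (Real.sqrt_nonneg _)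
    · exact (lowT_mono hst).eventuallyLE
  have hae := hmono.ae_differentiableAt
  have hpos : (0 : ENNReal) < volume (Ioo (0:ℝ) 3) := by simp
  obtain ⟨t, ht1, ht2⟩ : ∃ t ∈ Ioo (0:ℝ) 3, DifferentiableAt ℝ (AT g θ 2) t := by
    by_contra hcon
    push Not at hcon
    have : Ioo (0:ℝ) 3 ⊆ {t | ¬ DifferentiableAt ℝ (AT g θ 2) t} := fun t ht => hcon t ht
    have h0 : volume {t | ¬ DifferentiableAt ℝ (AT g θ 2) t} = 0 := hae
    exact absurd (measure_mono_null this h0) hpos.ne'
  refine ⟨FT θ 2 t, deriv (AT g θ 2) t, hL.encloses ht1.1 ht1.2 ?_, hL.areaLE hM hg.lt ht1.1 ht1.2 (hint2 t) ht2.hasDerivAt⟩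
  intro x hx _ _ hf
  have h1 : HasFDerivAt θ (2 • innerSL ℝ x) x := by
    have := (hasStrictFDerivAt_norm_sq x).hasFDerivAt
    simpa [hθ] using this.sub_const 1
  rw [h1.fderiv] at hf
  have h2 := congrArg (fun l : E3 →L[ℝ] ℝ => l x) hf
  simp at h2
  rw [h2] at hx
  norm_num at hx

end UMB
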