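import Pool.Agent.Lib.UMB.Asm.Defs
import Pool.Agent.Lib.UMB.Asm.Surf
import Pool.Agent.Lib.UMB.W.E1
import Pool.Agent.Lib.H44G.Sard

set_option autoImplicit false

/-!
# UMB, assembly: bridges from `W.Sol` to `LevFun`, regular values, bounded gradient
-/

open Filter Topology Set MeasureTheory
open scoped ContDiff

namespace UMB

open Pool.Agent.Lib.PenroseSph (E3 Tens pd gradNorm admFlux)
open UMB.Lin (Ann cAnn)

namespace Par

variable {P : Par}

theorem Ok.R1_pos (h : P.Ok) : 0 < P.R1 := by linarith [h.r1_ge, h.R1_ge]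

theorem Ok.one_lt_R (h : P.Ok) : 1 < P.R := by linarith [h.r1_ge, h.R1_ge, h.R_ge]

theorem Ok.v1_pos (h : P.Ok) : 0 < P.v1 := by
  unfold v1
  apply lt_min one_pos
  apply Real.rpow_pos_of_pos
  have := h.R1_pos
  have := h.r1_ge
  positivity

/-- The exponent function of the parameters. -/
theorem Ok.expo (h : P.Ok) : W.Expo (1 + P.q) P.p where
  one_lt := by linarith [h.q_pos]
  smooth := by
    unfold p b
    have h1 : ContDiff ℝ ∞ fun z : ℝ => (2 * P.v1 - z) / P.v1 := (contDiff_const.sub contDiff_id).div_const _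
    have h2 : ContDiff ℝ ∞ fun z : ℝ => Real.smoothTransition ((2 * P.v1 - z) / P.v1) :=
      Real.smoothTransition.contDiff.comp h1
    exact contDiff_const.add (contDiff_const.add (contDiff_const.mul h2))
  ge := by
    intro z
    unfold p b
    have h1 := Real.smoothTransition.nonneg ((2 * P.v1 - z) / P.v1)
    have h2 := h.q_lt
    nlinarith
  le := by
    intro z
    unfold p b
    have h1 := Real.smoothTransition.le_one ((2 * P.v1 - z) / P.v1)
    have h2 := h.q_lt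
    nlinarith

variable {v : E3 → ℝ}

theorem T_pos (h : P.Ok) (hκ : 0 < P.kap v) : 0 < P.T v := by
  unfold T F W.FF
  have he := h.expo
  have hc : ContinuousOn (fun t => (W.KK P.p t + P.kap v)⁻¹) (Icc 0 1) := by
    refine ContinuousOn.inv₀ ((W.KK_smooth he).continuous.continuousOn.add continuousOn_const) ?_
    intro t ht
    exact (W.e1_pos he hκ ht.1).ne'
  apply intervalIntegral.intervalIntegral_pos_of_pos_on
  · exact hc.intervalIntegrable_of_Icc zero_le_one
  · intro t ht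
    exact inv_pos.2 (W.e1_pos he hκ ht.1.le)
  · exact zero_lt_one

/-- `θ` is a level function. -/
theorem levFun (h : P.Ok) (hκ : 0 < P.kap v) (hv : W.Sol P.op v) : LevFun (P.th v) P.R (P.T v) where
  one_lt := h.one_lt_R
  pos := T_pos h hκ
  cont := by
    have he := h.expo
    intro x hx
    have h1 : ContinuousWithinAt v {x : E3 | 1 ≤ ‖x‖ ∧ ‖x‖ ≤ P.R} x := hv.cont x hx
    exact ((W.FF_deriv he hκ (hv.nonneg x hx)).continuousAt.tendsto).comp h1
  smooth := W.theta_smooth h.expo hκ (isOpen_annO P.R) hv.smooth fun x hx => hv.nonneg x ⟨hx.1.le, hx.2.le⟩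
  inner := by
    intro x hx
    show W.FF P.p (P.kap v) (v x) = 0
    rw [hv.one x hx, W.FF_one]
  outer := by
    intro x hx
    show W.FF P.p (P.kap v) (v x) = P.T v
    rw [hv.zero x hx]
    rfl

/-- Almost every level is regular. -/
theorem reg_ae {θ : E3 → ℝ} {R T : ℝ} (h : LevFun θ R T) :
    ∀ᵐ τ : ℝ, 0 < τ → τ < T → ∀ x : E3, 1 < ‖x‖ → ‖x‖ < R → θ x = τ → fderiv ℝ θ x ≠ 0 := by
  have h1 := Pool.Agent.H44G.sard (isOpen_annO R) h.smooth
  rw [ae_iff]
  refine measure_mono_null ?_ h1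
  intro τ hτ
  simp only [mem_setOf_eq, not_forall] at hτ
  obtain ⟨_, _, x, hx1, hx2, hx3, hx4⟩ := hτ
  exact ⟨x, ⟨⟨hx1, hx2⟩, not_not.1 hx4⟩, hx3⟩

/-- The first derivatives of `v` are bounded in the annulus. -/
theorem sol_D1_bd {D : OpData} (hv : W.Sol D v) : ∃ B : ℝ, ∀ x ∈ Ann D.R, ∀ i, |D1 v x i| ≤ B := by
  obtain ⟨w, hw, hwv⟩ := hv.approx 1 one_pos
  have hcomp : IsCompact (cAnn D.R) := by
    apply Metric.isCompact_of_isClosed_isBounded (isClosed_annC D.R)
    apply (Metric.isBounded_closedBall (x := (0:E3)) (r := D.R)).subset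
    intro x hx
    rw [mem_closedBall_zero_iff]
    exact hx.2
  have hb : ∀ i : Fin 3, ∃ B : ℝ, ∀ x ∈ cAnn D.R, |D1 w x i| ≤ B := by
    intro i
    have hc : Continuous fun x => |D1 w x i| := (cont_pd (hw.smooth.of_le (by exact_mod_cast le_top)) i).abs
    obtain ⟨B, hB⟩ := hcomp.exists_bound_of_continuousOn hc.continuousOn
    exact ⟨B, fun x hx => by simpa using hB x hx⟩
  choose B hB using hb
  refine ⟨∑ i, |B i| + 1, fun x hx i => ?_⟩
  have h1 := (hwv x hx).2.1 i
  have h2 := hB i x ⟨hx.1.le, hx.2.le⟩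
  have h3 : |B i| ≤ ∑ i, |B i| := Finset.single_le_sum (f := fun i => |B i|) (fun i _ => abs_nonneg _) (Finset.mem_univ i)
  have h4 : |D1 v x i| ≤ |D1 w x i| + |D1 w x i - D1 v x i| := by
    have := abs_sub_abs_le_abs_sub (D1 v x i) (D1 w x i)
    rw [abs_sub_comm] at this
    linarith
  have h5 := le_abs_self (B i)
  linarith

/-- The gradient of `θ` is bounded in the annulus. -/
theorem gradNorm_bd {g : Tens} {a : ℝ} (hg : AF g a) (h : P.Ok) (hκ : 0 < P.kap v) (hv : W.Sol P.op v) :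
    ∃ B : ℝ, ∀ x : E3, 1 < ‖x‖ → ‖x‖ < P.R → gradNorm g (P.th v) x ≤ B := by
  obtain ⟨B, hB⟩ := sol_D1_bd hv
  have hM := hg.toSmM
  have hcomp : IsCompact (cAnn P.R) := by
    apply Metric.isCompact_of_isClosed_isBounded (isClosed_annC P.R)
    apply (Metric.isBounded_closedBall (x := (0:E3)) (r := P.R)).subset
    intro x hx
    rw [mem_closedBall_zero_iff]
    exact hx.2
  have hb : ∀ i j : Fin 3, ∃ G : ℝ, ∀ x ∈ cAnn P.R, |(g x)⁻¹ i j| ≤ G := by
    intro i j
    have hc : ContinuousOn (fun x => (g x)⁻¹ i j) (cAnn P.R) := by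
      intro x hx
      exact (hM.inv (lt_of_lt_of_le hg.lt hx.1) i j).continuousAt.continuousWithinAt
    obtain ⟨G, hG⟩ := hcomp.exists_bound_of_continuousOn hc
    exact ⟨G, fun x hx => by simpa using hG x hx⟩
  choose G hG using hb
  refine ⟨Real.sqrt (∑ i, ∑ j, G i j * ((P.kap v)⁻¹ * B) * ((P.kap v)⁻¹ * B)), fun x hx1 hx2 => ?_⟩
  have hx : x ∈ Ann P.R := ⟨hx1, hx2⟩
  have hx' : x ∈ cAnn P.R := ⟨hx1.le, hx2.le⟩
  have hd : ∀ i, |pd i (P.th v) x| ≤ (P.kap v)⁻¹ * B := by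
    intro i
    have h1 := W.D1_theta h.expo hκ (isOpen_annO P.R) hv.smooth
      (fun y hy => hv.nonneg y ⟨hy.1.le, hy.2.le⟩) hx i
    change |D1 (W.theta P.p (P.kap v) v) x i| ≤ _
    rw [h1, abs_mul, abs_neg]
    have h2 := (W.KK_bd h.expo (hv.nonneg x hx')).1
    have h3 := hv.nonneg x hx'
    have h4 : |(W.KK P.p (v x) + P.kap v)⁻¹| ≤ (P.kap v)⁻¹ := by
      rw [abs_of_pos (inv_pos.2 (by linarith))]
      exact inv_anti₀ hκ (by linarith)
    exact mul_le_mul h4 (hB x hx i) (abs_nonneg _) (inv_nonneg.2 hκ.le)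
  unfold gradNorm
  apply Real.sqrt_le_sqrt
  apply Finset.sum_le_sum
  intro i _
  apply Finset.sum_le_sum
  intro j _
  have hB0 : 0 ≤ (P.kap v)⁻¹ * B := (abs_nonneg _).trans (hd i)
  calc (g x)⁻¹ i j * pd i (P.th v) x * pd j (P.th v) x
      ≤ |(g x)⁻¹ i j * pd i (P.th v) x * pd j (P.th v) x| := le_abs_self _
    _ = |(g x)⁻¹ i j| * |pd i (P.th v) x| * |pd j (P.th v) x| := by rw [abs_mul, abs_mul]
    _ ≤ G i j * ((P.kap v)⁻¹ * B) * ((P.kap v)⁻¹ * B) := by
        have h5 := hG i j x hx'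
        have h6 : 0 ≤ G i j := (abs_nonneg _).trans h5
        exact mul_le_mul (mul_le_mul h5 (hd i) (abs_nonneg _) h6) (hd j) (abs_nonneg _) (by positivity)

end Par

end UMB
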