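import Pool.Agent.Lib.UMB.Asm.Top

set_option autoImplicit false

/-!
# UMB, assembly: `core` from the top theorems of the blocks
-/

open Filter Topology Set MeasureTheory
open scoped ContDiff

namespace UMB

open Pool.Agent.Lib.PenroseSph (E3 Tens pd gradNorm admFlux)

/-- The output of sections 1 - 9: `w` bounds the Willmore energy of the inner sphere, `φ` is the flux at infinity. -/
theorem core' {g : Tens} {a E K δ Φ w : ℝ} (hg : AF g a) (hE : Tendsto (admFlux g) atTop (𝓝 E)) (hδ : 0 < δ) (hΦ : 0 ≤ Φ)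
    (hw0 : 0 ≤ w) (hw : w < 16 * Real.pi) :
    ∀ R0 : ℝ, ∃ L R : ℝ, 0 ≤ L ∧ 1 < R ∧ ∀ (k : Tens) (η : E3 → ℝ) (η0 φ : ℝ), 0 ≤ φ → φ ≤ Φ → Adm g k a K η η0 R0 φ →
      wil g k ≤ w → ∃ (F : Set E3) (c : ℝ), Encloses F ∧ AreaLE g a F c ∧
        Real.sqrt (c / (16 * Real.pi)) * (1 - w / (16 * Real.pi)) ≤
          E + φ / (8 * Real.pi) + δ + L * Real.sqrt (∫ x in {x : E3 | 1 ≤ ‖x‖ ∧ ‖x‖ ≤ R}, (η x) ^ 2) := by
  have hpi := Real.pi_pos
  have hpi3 := Real.pi_gt_three
  obtain ⟨c1, hc1, hen⟩ := energy' hg hE K hΦ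
  obtain ⟨c2, hc2, hfl⟩ := flux' hg K
  set c0 := max c1 c2 with hc0
  have hc0n : 0 ≤ c0 := hc1.trans (le_max_left _ _)
  set μ := 4 * Real.pi - w / 4 with hμ
  have hμ0 : 0 < μ := by rw [hμ]; linarith
  have hμ1 : μ ≤ 4 * Real.pi := by rw [hμ]; linarith
  set M := 2 / μ * (8 * Real.pi * |E| + Φ + δ + 1) with hM
  have hM0 : 0 ≤ M := by positivity
  obtain ⟨q0, hq0, hq01, har⟩ := area_fin' (g := g) (a := a) hg (C0 := c0) (M := M)
    (κ := 4 * Real.pi * (δ ^ 2 / 4)) hc0n hM0 (by positivity)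
  set q := q0 / 2 with hq
  have hq1 : 0 < q := by positivity
  have hq2 : q < 1 := by rw [hq]; linarith
  have hq3 : q ≤ q0 := by rw [hq]; linarith
  obtain ⟨φ0, hφ0, har⟩ := har q hq1 hq3
  obtain ⟨C, hC, hen⟩ := hen c0 (le_max_left _ _) q hq1 hq2
  have hfl := hfl c0 (le_max_right _ _) q hq1 hq2 (C * 2) M φ0 hφ0
  intro R0
  have hlim : Tendsto (fun R1 : ℝ => C / R1) atTop (𝓝 0) := tendsto_const_nhds.div_atTop tendsto_id
  have hlim2 : Tendsto (fun R1 : ℝ => C / R1 * M) atTop (𝓝 0) := by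
    simpa using hlim.mul_const M
  obtain ⟨R1, ⟨⟨hen, hfl⟩, hR1a, hR1b⟩, hR1c, hR1d⟩ := (((hen.and hfl).and
    ((hlim.eventually (gt_mem_nhds (show (0:ℝ) < μ / 2 by positivity))).and
      (hlim2.eventually (gt_mem_nhds (show (0:ℝ) < δ by positivity))))).and
    ((eventually_ge_atTop (4 * (1 + 100 * c0 / q))).and (eventually_gt_atTop (0 : ℝ)))).exists
  have hen := hen δ hδ R0
  have hfl := hfl R0
  obtain ⟨R, ⟨hen, hfl⟩, hRa, hRb⟩ := ((hen.and hfl).and
    ((eventually_ge_atTop (8 * R1)).and (eventually_gt_atTop (1 : ℝ)))).exists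
  obtain ⟨L, hL1, hen⟩ := hen
  have hL : 0 ≤ L := by linarith
  obtain ⟨F0, cF, hF0, hF1⟩ := exists_surface' hg
  set S := Real.sqrt (cF / (16 * Real.pi)) with hS
  have hS0 : 0 ≤ S := Real.sqrt_nonneg _
  refine ⟨L * (1 + S + |E|), R, by positivity, hRb, fun k η η0 φ hφ1 hφ2 hk hwk => ?_⟩
  have eN : Real.sqrt (∫ x in {x : E3 | 1 ≤ ‖x‖ ∧ ‖x‖ ≤ R}, (η x) ^ 2) = errN η 0 R := (zero_add _).symm
  rw [eN]
  have hN : 0 ≤ errN η 0 R := add_nonneg le_rfl (Real.sqrt_nonneg _)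
  have hLN : 0 ≤ L * errN η 0 R := mul_nonneg hL hN
  have hφ8 : 0 ≤ φ / (8 * Real.pi) := by positivity
  have hw1 : 1 - w / (16 * Real.pi) = μ / (4 * Real.pi) := by rw [hμ]; field_simp; ring
  have hw2 : 0 ≤ μ / (4 * Real.pi) := by positivity
  have hw3 : μ / (4 * Real.pi) ≤ 1 := by rw [div_le_one (by positivity)]; exact hμ1
  rw [hw1]
  by_cases hbig : 1 < L * errN η 0 R
  · refine ⟨F0, cF, hF0, hF1, ?_⟩
    rw [← hS]
    have h1 : S + |E| ≤ L * errN η 0 R * (S + |E|) := by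
      have := mul_le_mul_of_nonneg_right hbig.le (show 0 ≤ S + |E| by positivity)
      linarith
    have h2 := neg_abs_le E
    have h3 : S * (μ / (4 * Real.pi)) ≤ S := mul_le_of_le_one_right hS0 hw3
    nlinarith
  · have hsm : L * errN η 0 R ≤ 1 := not_lt.1 hbig
    obtain ⟨eta, heta⟩ := exists_moll'
    have hen := hen k η η0 φ hφ1 hφ2 hk (hwk.trans hw.le) eta heta
    have hfl := hfl k η η0 φ hφ1 hk eta heta
    have hone : ∀ᶠ e in 𝓝[>] (0 : ℝ), e ≤ 1 :=
      (Filter.Eventually.filter_mono nhdsWithin_le_nhds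
        ((gt_mem_nhds (show (0:ℝ) < 1 by norm_num)).mono fun x hx => hx.le))
    have hpos : ∀ᶠ e in 𝓝[>] (0 : ℝ), 0 < e := self_mem_nhdsWithin
    obtain ⟨eps, ⟨hen, hfl⟩, he1, he0⟩ := ((hen.and hfl).and (hone.and hpos)).exists
    obtain ⟨d, ⟨hen, hfl⟩, hd1, hd0⟩ := ((hen.and hfl).and (hone.and hpos)).exists
    have hPok : (mkP g k a c0 q R1 R eps d eta).Ok :=
      { q_pos := hq1
        q_lt := hq2
        r1_ge := by
          change 1 ≤ 1 + 100 * c0 / q
          have : 0 ≤ 100 * c0 / q := by positivity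
          linarith
        R1_ge := hR1c
        R_ge := hRa
        eps_pos := he0
        eps_le := he1
        d_pos := hd0
        d_le := hd1
        eta_smooth := heta.smooth
        eta_nonneg := heta.nonneg
        eta_supp := heta.supp
        eta_int := heta.int }
    obtain ⟨v, hv⟩ := exists_sol' _ (op_ok' hg hk hPok)
    obtain ⟨hD, hCC⟩ := hen hPok v hv
    have hDm : (mkP g k a c0 q R1 R eps d eta).D v ≤ C * 2 := by
      refine hD.trans ?_
      apply mul_le_mul_of_nonneg_left _ hC.le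
      linarith
    have hR1e : C / R1 ≤ μ / 2 := hR1a.le
    have hu0 : 0 ≤ C / R1 := by positivity
    have h8 : 8 * Real.pi * E ≤ 8 * Real.pi * |E| := by
      have := le_abs_self E
      gcongr
    have hCM : (mkP g k a c0 q R1 R eps d eta).CC v ≤ M := by
      by_contra hcon
      have hcon : M < (mkP g k a c0 q R1 R eps d eta).CC v := not_le.1 hcon
      have hp : 0 ≤ (mkP g k a c0 q R1 R eps d eta).CC v := hM0.trans hcon.le
      have h1 : (mkP g k a c0 q R1 R eps d eta).CC v * (μ / 2) ≤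
          (mkP g k a c0 q R1 R eps d eta).CC v * (4 * Real.pi - wil g k / 4 - C / R1) := by
        apply mul_le_mul_of_nonneg_left _ hp
        rw [hμ]
        rw [hμ] at hR1e
        linarith
      have h3 : M * (μ / 2) < (mkP g k a c0 q R1 R eps d eta).CC v * (μ / 2) :=
        mul_lt_mul_of_pos_right hcon (by positivity)
      have h4 : M * (μ / 2) = 8 * Real.pi * |E| + Φ + δ + 1 := by
        rw [hM]
        field_simp
      linarith
    obtain ⟨hC0, hLev, hTq, hreg, hbd, hvol, hwin⟩ := hfl hPok v hv hDm hCM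
    obtain ⟨F, c, hF, hA, hc⟩ := har R _ _ _ φ0 hLev hTq hreg hbd hvol hC0 hCM le_rfl hwin
    refine ⟨F, c, hF, hA, ?_⟩
    have h1 : (mkP g k a c0 q R1 R eps d eta).CC v * (μ - C / R1) ≤
        (mkP g k a c0 q R1 R eps d eta).CC v * (4 * Real.pi - wil g k / 4 - C / R1) := by
      apply mul_le_mul_of_nonneg_left _ hC0
      rw [hμ]
      linarith
    have hls := last_step (E := E) (φ := φ) (δ := δ) (μ := μ) (u := C / R1) (M := M)
      (Cc := (mkP g k a c0 q R1 R eps d eta).CC v) (κ := 4 * Real.pi * (δ ^ 2 / 4)) (c := c)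
      (x := L * errN η 0 R) hδ hμ0 hμ1 hR1b.le hu0 rfl hC0 hCM (h1.trans hCC) hc hLN
    refine hls.trans ?_
    have h5 : L * errN η 0 R ≤ L * (1 + S + |E|) * errN η 0 R := by
      have : L * (1 + S + |E|) * errN η 0 R = L * errN η 0 R + (L * errN η 0 R) * (S + |E|) := by ring
      rw [this]
      have : 0 ≤ (L * errN η 0 R) * (S + |E|) := by positivity
      linarith
    linarith

end UMB
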