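import Pool.Agent.Lib.UMB.Asm.Br

set_option autoImplicit false

/-!
# UMB, assembly: the quantifier prefix

`FA g a K c0 q R1 R0 R Q`: the property `Q P v` holds for all admissible data, all mollifiers `eta`, all small `eps`, `d` and
all solutions `v` of the concrete problem (`P = mkP ...`).
-/

open Filter Topology Set MeasureTheory
open scoped ContDiff

namespace UMB

open Pool.Agent.Lib.PenroseSph (E3 Tens pd gradNorm admFlux)

/-- For all admissible `k`, all mollifiers, all small `eps`, `d`, all solutions. -/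
def FA (g : Tens) (a K c0 q R1 R0 R : ℝ) (Q : Par → (E3 → ℝ) → Prop) : Prop :=
  ∀ (k : Tens) (η : E3 → ℝ) (η0 δ' : ℝ), 0 ≤ δ' → Adm g k a K η η0 R0 δ' → ∀ eta : E3 → ℝ, Moll eta →
    ∀ᶠ eps in 𝓝[>] (0 : ℝ), ∀ᶠ d in 𝓝[>] (0 : ℝ), (mkP g k a c0 q R1 R eps d eta).Ok →
      ∀ v : E3 → ℝ, W.Sol (mkP g k a c0 q R1 R eps d eta).op v → Q (mkP g k a c0 q R1 R eps d eta) v

theorem FA.mono {g : Tens} {a K c0 q R1 R0 R : ℝ} {Q Q' : Par → (E3 → ℝ) → Prop} (h : FA g a K c0 q R1 R0 R Q)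
    (hQ : ∀ (P : Par) (v : E3 → ℝ), P.Ok → W.Sol P.op v → P.g = g → P.q = q → P.R1 = R1 → P.R = R → P.r1 = 1 + 100 * c0 / q →
      Q P v → Q' P v) :
    FA g a K c0 q R1 R0 R Q' := by
  intro k η η0 δ' h1 h3 eta heta
  filter_upwards [h k η η0 δ' h1 h3 eta heta] with eps h4
  filter_upwards [h4] with d h5
  intro h6 v h7
  exact hQ _ _ h6 h7 rfl rfl rfl rfl rfl (h5 h6 v h7)

theorem FA.and {g : Tens} {a K c0 q R1 R0 R : ℝ} {Q Q' : Par → (E3 → ℝ) → Prop} (h : FA g a K c0 q R1 R0 R Q)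
    (h' : FA g a K c0 q R1 R0 R Q') : FA g a K c0 q R1 R0 R (fun P v => Q P v ∧ Q' P v) := by
  intro k η η0 δ' h1 h3 eta heta
  filter_upwards [h k η η0 δ' h1 h3 eta heta, h' k η η0 δ' h1 h3 eta heta] with eps h4 h4'
  filter_upwards [h4, h4'] with d h5 h5'
  intro h6 v h7
  exact ⟨h5 h6 v h7, h5' h6 v h7⟩

/-- The density of the flux through the levels of the transition region. -/
noncomputable def Par.mm (P : Par) (v : E3 → ℝ) (x : E3) : ℝ :=
  1 / P.CC v * Real.exp (-3 * P.th v x) * (P.CC v * P.s v x) ^ (P.b (v x) + 1) * (gsq P.g v x / P.gv v x ^ 2)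

/-- `m`, the flux through the transition region. -/
noncomputable def Par.m (P : Par) (v : E3 → ℝ) : ℝ :=
  ∫ x in {x : E3 | P.v1 ≤ v x ∧ v x ≤ 2 * P.v1} ∩ ann P.R, P.mm v x * vol P.g x

end UMB
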