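import Pool.Agent.Lib.UMB.Asm.In

set_option autoImplicit false

/-!
# UMB, assembly: `flux'` from the inputs of `In.lean`
-/

open Filter Topology Set MeasureTheory
open scoped ContDiff

namespace UMB

open Pool.Agent.Lib.PenroseSph (E3 Tens pd gradNorm admFlux)

/-- `T1 ≤ T`. -/
theorem Par.T1_le {P : Par} {v : E3 → ℝ} (h : P.Ok) (hκ : 0 < P.kap v) : P.T1 v ≤ P.T v := by
  have he := h.expo
  have hv1 : 0 < P.v1 := h.v1_pos
  have hint : ∀ a b : ℝ, 0 ≤ a → 0 ≤ b → IntervalIntegrable (fun t => (W.KK P.p t + P.kap v)⁻¹) volume a b := by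
    intro a b ha hb
    apply ContinuousOn.intervalIntegrable
    refine ContinuousOn.inv₀ ((W.KK_smooth he).continuous.continuousOn.add continuousOn_const) ?_
    intro t ht
    have ht0 : 0 ≤ t := by
      rw [mem_uIcc] at ht
      rcases ht with ht | ht <;> linarith [ht.1]
    exact (W.e1_pos he hκ ht0).ne'
  unfold T1 T F W.FF
  rw [← intervalIntegral.integral_add_adjacent_intervals (hint 0 (2 * P.v1) le_rfl (by positivity))
    (hint (2 * P.v1) 1 (by positivity) zero_le_one)]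
  have h1 : 0 ≤ ∫ t in (0:ℝ)..(2 * P.v1), (W.KK P.p t + P.kap v)⁻¹ := by
    apply intervalIntegral.integral_nonneg (by positivity)
    intro t ht
    exact (inv_pos.2 (W.e1_pos he hκ ht.1)).le
  linarith

/-- `flux'` of `Top.lean`. -/
theorem flux'' {g : Tens} {a : ℝ} (hg : AF g a) (K : ℝ) :
    ∃ c00 : ℝ, 0 ≤ c00 ∧ ∀ c0 : ℝ, c00 ≤ c0 → ∀ q : ℝ, 0 < q → q < 1 → ∀ Dm M φ : ℝ, 0 < φ →
      ∀ᶠ R1 in atTop, ∀ R0 : ℝ, ∀ᶠ R in atTop, FA g a K c0 q R1 R0 R fun P v =>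
        P.D v ≤ Dm → P.CC v ≤ M →
              0 ≤ P.CC v ∧
              LevFun (P.th v) R (P.T v) ∧
              q ^ 2 / 8 < P.T v ∧
              (∀ᵐ τ : ℝ, 0 < τ → τ < P.T v → ∀ x : E3, 1 < ‖x‖ → ‖x‖ < R →
                P.th v x = τ → fderiv ℝ (P.th v) x ≠ 0) ∧
              (∃ B : ℝ, ∀ x : E3, 1 < ‖x‖ → ‖x‖ < R → gradNorm g (P.th v) x ≤ B) ∧
              (∀ x : E3, 1 < ‖x‖ → ‖x‖ < R → P.th v x < q ^ 2 / 8 →
                ‖x‖ ≤ Real.exp 2 * (1 + 100 * c0 / q)) ∧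
              BT g (P.th v) R q (q ^ 2 / 16) (q ^ 2 / 8) ≤
                (q ^ 2 / 16) * (Real.exp ((2 - q) * (q ^ 2 / 8)) *
                  (4 * Real.pi * P.CC v ^ (2 - q) + φ)) := by
  obtain ⟨c1, hc1, hB⟩ := Bw hg K
  obtain ⟨c2, hc2, hF⟩ := F2w hg K
  obtain ⟨c3, hc3, hR⟩ := R3 hg K
  refine ⟨max c1 (max c2 c3), le_max_of_le_left hc1, fun c0 hc0 q hq0 hq1 Dm M φ hφ => ?_⟩
  have hc01 : c1 ≤ c0 := (le_max_left _ _).trans hc0
  have hc02 : c2 ≤ c0 := ((le_max_left _ _).trans (le_max_right _ _)).trans hc0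
  have hc03 : c3 ≤ c0 := ((le_max_right _ _).trans (le_max_right _ _)).trans hc0
  obtain ⟨cq, hcq, hB⟩ := hB c0 hc01 q hq0 hq1
  obtain ⟨Cq, hCq, hF⟩ := hF c0 hc02 q hq0 hq1
  obtain ⟨C, hC, hR⟩ := hR c0 hc03 q hq0 hq1 Dm M
  -- choice of `N`
  have hlim : Tendsto (fun N : ℝ => Cq * cq ^ (-q) * (C * Real.exp (-(N / 2)) / cq)) atTop (𝓝 0) := by
    have h1 : Tendsto (fun N : ℝ => Real.exp (-(N / 2))) atTop (𝓝 0) :=
      Real.tendsto_exp_neg_atTop_nhds_zero.comp (tendsto_id.atTop_div_const (by norm_num))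
    have h2 := ((h1.const_mul C).div_const cq).const_mul (Cq * cq ^ (-q))
    simpa using h2
  obtain ⟨N, hN1, hN2⟩ := ((hlim.eventually (gt_mem_nhds (show 0 < φ / 2 by positivity))).and
    (eventually_ge_atTop (1:ℝ))).exists
  filter_upwards [hB N, hF, hR] with R1 hB hF hR R0
  filter_upwards [hB R0, hF R0, hR R0] with R hB hF hR
  have hF := hF (φ / 2) (by positivity)
  refine ((hB.and hF).and hR).mono ?_
  rintro P v hP hv rfl rfl rfl rfl hr1 ⟨⟨⟨hκ, hCC, hT1, hvol⟩, hF⟩, hR⟩ hD hM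
  have hCC0 : 0 < P.CC v := hcq.trans_le hCC
  have hq2 : P.q ^ 2 / 8 < 1 := by nlinarith
  refine ⟨hCC0.le, Par.levFun hP hκ hv, ?_, Par.reg_ae (Par.levFun hP hκ hv), ?_, hvol, ?_⟩
  · have := Par.T1_le hP hκ
    linarith
  · exact Par.gradNorm_bd hg hP hκ hv
  · refine hF.trans ?_
    have hErr := hR hD hM
    have h0 : 0 ≤ P.q ^ 2 / 16 := by positivity
    apply mul_le_mul_of_nonneg_left _ h0
    apply mul_le_mul_of_nonneg_left _ (Real.exp_pos _).le
    have h1 : P.Err v ≤ C * Real.exp (-(N / 2)) := by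
      refine hErr.trans ?_
      apply mul_le_mul_of_nonneg_left _ hC
      apply Real.exp_le_exp.2
      linarith
    have h2 : Cq * P.CC v ^ (-P.q) * (P.Err v / P.CC v) ≤ Cq * cq ^ (-P.q) * (C * Real.exp (-(N / 2)) / cq) := by
      have h3 : P.CC v ^ (-P.q) ≤ cq ^ (-P.q) :=
        Real.rpow_le_rpow_of_nonpos hcq hCC (by linarith)
      have h4 : 0 ≤ P.CC v ^ (-P.q) := Real.rpow_nonneg hCC0.le _
      have h5 : 0 ≤ C * Real.exp (-(N / 2)) / cq := by positivity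
      have h6 : P.Err v / P.CC v ≤ C * Real.exp (-(N / 2)) / cq := by
        rw [div_le_div_iff₀ hCC0 hcq]
        have h7 : 0 ≤ C * Real.exp (-(N / 2)) := by positivity
        nlinarith
      calc Cq * P.CC v ^ (-P.q) * (P.Err v / P.CC v) ≤ Cq * P.CC v ^ (-P.q) * (C * Real.exp (-(N / 2)) / cq) :=
            mul_le_mul_of_nonneg_left h6 (by positivity)
        _ ≤ Cq * cq ^ (-P.q) * (C * Real.exp (-(N / 2)) / cq) := by
            apply mul_le_mul_of_nonneg_right _ h5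
            exact mul_le_mul_of_nonneg_left h3 hCq.le
    linarith [hN1]

end UMB
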