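import Pool.Agent.Lib.UMB.Asm.Defs

set_option autoImplicit false

open Filter Topology Set MeasureTheory
open scoped ContDiff

namespace UMB

open Pool.Agent.Lib.PenroseSph (E3 Tens pd gradNorm admFlux)

/-- There is a mollifier. -/
theorem exists_moll : ∃ eta : E3 → ℝ, Moll eta := by
  let f : ContDiffBump (0 : E3) := ⟨1 / 2, 1, by norm_num, by norm_num⟩
  refine ⟨f.normed volume, ⟨f.contDiff_normed, fun x => f.nonneg_normed x, fun x hx => ?_, f.integral_normed⟩⟩
  have h := f.support_normed_eq (μ := (volume : Measure E3))
  by_contra hne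
  have hx2 : x ∈ Function.support (f.normed volume) := hne
  rw [h] at hx2
  simp only [Metric.mem_ball, dist_zero_right] at hx2
  have : f.rOut = 1 := rfl
  rw [this] at hx2
  linarith

end UMB
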