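import Pool.Agent.Lib.UMB.Asm.FA
import Pool.Agent.Lib.UMB.B.Bw
import Pool.Agent.Lib.UMB.FL.Top
import Pool.Agent.Lib.UMB.R.Top

set_option autoImplicit false

/-!
# UMB, assembly: the inputs of `flux'`

`Bw` (block B, helper4), `F1w`, `F2w` (block F, helper50), `R3` (block R, helper70).
-/

open Filter Topology Set MeasureTheory
open scoped ContDiff

namespace UMB

open Pool.Agent.Lib.PenroseSph (E3 Tens pd gradNorm admFlux)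

/-- **B** (S4.md 5.1 - 5.6, helper4). -/
theorem Bw {g : Tens} {a : ℝ} (hg : AF g a) (K : ℝ) :
    ∃ c00 : ℝ, 0 ≤ c00 ∧ ∀ c0 : ℝ, c00 ≤ c0 → ∀ q : ℝ, 0 < q → q < 1 → ∃ cq : ℝ, 0 < cq ∧ ∀ N : ℝ,
      ∀ᶠ R1 in atTop, ∀ R0 : ℝ, ∀ᶠ R in atTop, FA g a K c0 q R1 R0 R fun P v =>
        0 < P.kap v ∧ cq ≤ P.CC v ∧ N ≤ P.T1 v ∧
          ∀ x : E3, 1 < ‖x‖ → ‖x‖ < R → P.th v x < q ^ 2 / 8 → ‖x‖ ≤ Real.exp 2 * (1 + 100 * c0 / q) := by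
  exact B.Bw hg K

/-- **F1** (S4.md 6.3, helper50): the flux through the transition region. -/
theorem F1w {g : Tens} {a : ℝ} (hg : AF g a) (K : ℝ) :
    ∃ c00 : ℝ, 0 ≤ c00 ∧ ∀ c0 : ℝ, c00 ≤ c0 → ∀ q : ℝ, 0 < q → q < 1 → ∃ Cq : ℝ, 0 < Cq ∧
      ∀ᶠ R1 in atTop, ∀ R0 : ℝ, ∀ᶠ R in atTop, ∀ τ : ℝ, 0 < τ → FA g a K c0 q R1 R0 R fun P v =>
        P.m v ≤ 12 * Real.pi * P.CC v ^ 2 + Cq / P.CC v * P.Err v + τ := by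
  exact FL.F1w hg K

/-- **F2** (S4.md 6.3, 6.4, helper50): the flux through the window. -/
theorem F2w {g : Tens} {a : ℝ} (hg : AF g a) (K : ℝ) :
    ∃ c00 : ℝ, 0 ≤ c00 ∧ ∀ c0 : ℝ, c00 ≤ c0 → ∀ q : ℝ, 0 < q → q < 1 → ∃ Cq : ℝ, 0 < Cq ∧
      ∀ᶠ R1 in atTop, ∀ R0 : ℝ, ∀ᶠ R in atTop, ∀ τ : ℝ, 0 < τ → FA g a K c0 q R1 R0 R fun P v =>
        BT g (P.th v) R q (q ^ 2 / 16) (q ^ 2 / 8) ≤
          (q ^ 2 / 16) * (Real.exp ((2 - q) * (q ^ 2 / 8)) *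
            (4 * Real.pi * P.CC v ^ (2 - q) + Cq * P.CC v ^ (-q) * (P.Err v / P.CC v) + τ)) := by
  exact FL.F2w hg K

/-- **R3** (S4.md 7, helper70): the transition error. -/
theorem R3 {g : Tens} {a : ℝ} (hg : AF g a) (K : ℝ) :
    ∃ c00 : ℝ, 0 ≤ c00 ∧ ∀ c0 : ℝ, c00 ≤ c0 → ∀ q : ℝ, 0 < q → q < 1 → ∀ Dm M : ℝ, ∃ C : ℝ, 0 ≤ C ∧
      ∀ᶠ R1 in atTop, ∀ R0 : ℝ, ∀ᶠ R in atTop, FA g a K c0 q R1 R0 R fun P v =>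
        P.D v ≤ Dm → P.CC v ≤ M → P.Err v ≤ C * Real.exp (-(P.T1 v / 2)) := by
  exact R.R3 hg K

end UMB
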