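import Pool.Agent.Lib.UMB.Asm.Br
import Pool.Agent.Lib.UMB.Lin.P9
import Pool.Agent.Lib.H44G.Defs

set_option autoImplicit false

/-!
# UMB, assembly: maximum principle on open subsets, `W.Sol → H44G.IsLevel`
-/

open Filter Topology Set MeasureTheory
open scoped ContDiff

namespace UMB

open Pool.Agent.Lib.PenroseSph (E3 Tens pd gradNorm)
open UMB.Lin (Ann cAnn CGood C2c Lc ga gb kp kp_pos isCompact_cAnn isOpen_Ann Ann_subset C2c_exp Lc_add_mul exp_sub max_pd
  max_hess trace_nonpos between)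

/-- The weak maximum principle on open subsets of the annulus. -/
theorem weak_max_open {R lam B : ℝ} (hR : 1 < R) (hlam : 0 < lam) (hB : 0 ≤ B)
    {a : Fin 3 → Fin 3 → E3 → ℝ} {b : Fin 3 → E3 → ℝ} (h : CGood R lam B a b (fun _ => 0))
    {v : E3 → ℝ} (hv : C2c R v) (hL : ∀ x ∈ Ann R, 0 ≤ Lc a b (fun _ => 0) v x) {W : Set E3} (hW : IsOpen W)
    (hWs : W ⊆ Ann R) {M : ℝ} (h0 : ∀ x ∈ frontier W, v x ≤ M) : ∀ x ∈ W, v x ≤ M := by
  by_contra hcon
  push Not at hcon
  obtain ⟨x0, hx0, hv0⟩ := hcon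
  have hcl : closure W ⊆ cAnn R := by
    have h1 : IsClosed (cAnn R) := (isCompact_cAnn R).isClosed
    exact closure_minimal (hWs.trans (Ann_subset R)) h1
  have hcomp : IsCompact (closure W) := (isCompact_cAnn R).of_isClosed_subset isClosed_closure hcl
  set κ := kp R lam B with hκ
  have hκ1 : 1 ≤ κ := kp_pos hR hlam hB
  set E : ℝ := Real.exp (κ * R ^ 2) with hE
  have hEpos : 0 < E := Real.exp_pos _
  set ε : ℝ := (v x0 - M) / (2 * E) with hε
  have hεpos : 0 < ε := div_pos (sub_pos.2 hv0) (by positivity)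
  set e : E3 → ℝ := fun x => Real.exp (κ * ‖x‖ ^ 2) with he
  set u : E3 → ℝ := fun x => 1 * v x + ε * e x with hu
  have hec : C2c R e := C2c_exp R κ
  have huc : ContinuousOn u (closure W) :=
    ((continuousOn_const.mul (hv.cont.mono hcl)).add (continuousOn_const.mul (hec.cont.mono hcl)))
  have hne : (closure W).Nonempty := ⟨x0, subset_closure hx0⟩
  obtain ⟨x, hx, hmax⟩ := hcomp.exists_isMaxOn hne huc
  have hele : ∀ y ∈ cAnn R, e y ≤ E := by
    intro y hy
    have h1 : ‖y‖ ≤ R := hy.2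
    have h2 : 0 ≤ ‖y‖ := norm_nonneg y
    apply Real.exp_le_exp.mpr
    have h3 : ‖y‖ ^ 2 ≤ R ^ 2 := by gcongr
    nlinarith
  have hvx : M < v x := by
    have h1 : u x0 ≤ u x := hmax (subset_closure hx0)
    have h2 : 0 < e x0 := Real.exp_pos _
    have h3 : ε * E = (v x0 - M) / 2 := by
      rw [hε]; field_simp
    have h4 : u x0 = v x0 + ε * e x0 := by rw [hu]; ring
    have h5 : 0 < ε * e x0 := by positivity
    have h6 : u x = v x + ε * e x := by rw [hu]; ring
    have h7 : ε * e x ≤ ε * E := by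
      have := hele x (hcl hx)
      gcongr
    linarith
  have hxW : x ∈ W := by
    by_contra hcx
    have : x ∈ frontier W := by
      rw [hW.frontier_eq]
      exact ⟨hx, hcx⟩
    exact absurd (h0 x this) (not_le.2 hvx)
  have hxA : x ∈ Ann R := hWs hxW
  have hloc : IsLocalMax u x := by
    have h1 : closure W ∈ 𝓝 x := Filter.mem_of_superset (hW.mem_nhds hxW) subset_closure
    exact hmax.isLocalMax h1
  have hvd : ContDiffAt ℝ 2 v x := hv.c2 x hxA
  have hed : ContDiffAt ℝ 2 e x := hec.c2 x hxA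
  have hud : ContDiffAt ℝ 2 u x := (contDiffAt_const.mul hvd).add (contDiffAt_const.mul hed)
  have h1 : Lc a b (fun _ => 0) u x = 1 * Lc a b (fun _ => 0) v x + ε * Lc a b (fun _ => 0) e x :=
    Lc_add_mul hvd hed 1 ε
  have h2 : 0 < Lc a b (fun _ => 0) e x := exp_sub hR hlam hB h le_rfl hxA
  have h3 : 0 ≤ Lc a b (fun _ => 0) v x := hL x hxA
  have h4 : 0 < Lc a b (fun _ => 0) u x := by
    have : 0 < ε * Lc a b (fun _ => 0) e x := mul_pos hεpos h2
    linarith
  have h5 : Lc a b (fun _ => 0) u x ≤ 0 := by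
    have h6 : ∀ i, pd i u x = 0 := fun i => max_pd hloc i
    have h7 : ∑ i, ∑ j, a i j x * pd i (pd j u) x ≤ 0 := by
      apply trace_nonpos (A := fun i j => a i j x) (M := fun i j => pd i (pd j u) x)
      · intro i j
        exact h.symm i j x hxA
      · intro ζ
        have h8 := h.ell x hxA ζ
        have h9 : 0 ≤ lam * ∑ i, ζ i ^ 2 := by positivity
        linarith
      · intro ζ
        exact max_hess hud hloc ζ
    unfold Lc
    simp only [h6]
    simpa using h7
  linarith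

/-- The weak minimum principle on open subsets of the annulus. -/
theorem weak_min_open {R lam B : ℝ} (hR : 1 < R) (hlam : 0 < lam) (hB : 0 ≤ B)
    {a : Fin 3 → Fin 3 → E3 → ℝ} {b : Fin 3 → E3 → ℝ} (h : CGood R lam B a b (fun _ => 0))
    {v : E3 → ℝ} (hv : C2c R v) (hL : ∀ x ∈ Ann R, Lc a b (fun _ => 0) v x ≤ 0) {W : Set E3} (hW : IsOpen W)
    (hWs : W ⊆ Ann R) {M : ℝ} (h0 : ∀ x ∈ frontier W, M ≤ v x) : ∀ x ∈ W, M ≤ v x := by
  have hz : C2c R (fun _ => (0:ℝ)) := ⟨fun _ _ => contDiffAt_const, continuousOn_const⟩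
  have hv' : C2c R (fun y => (-1) * v y + 0 * (fun _ => (0:ℝ)) y) :=
    ⟨fun x hx => (contDiffAt_const.mul (hv.c2 x hx)).add (contDiffAt_const.mul (hz.c2 x hx)),
      (continuousOn_const.mul hv.cont).add (continuousOn_const.mul hz.cont)⟩
  have h1 := weak_max_open hR hlam hB h hv' (W := W) (M := -M) (fun x hx => by
    rw [Lc_add_mul (hv.c2 x hx) (hz.c2 x hx)]
    have := hL x hx
    linarith) hW hWs (fun x hx => by
      have := h0 x hx
      simp only
      linarith)
  intro x hx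
  have := h1 x hx
  simp only at this
  linarith

/-- The linear equation of a solution. -/
theorem sol_lin {D : OpData} (hD : D.Ok) : ∃ lam B : ℝ, 0 < lam ∧ 0 ≤ B ∧ ∀ v : E3 → ℝ, W.Sol D v →
    CGood D.R lam B (ga D v) (gb D v) (fun _ => 0) ∧ C2c D.R v ∧
      ∀ x ∈ Ann D.R, Lc (ga D v) (gb D v) (fun _ => 0) v x = 0 := by
  obtain ⟨lam, B, hlam, hB, hc⟩ := Lin.p8_cmap hD
  refine ⟨lam, B 0, hlam, hB 0, fun v hv => ?_⟩
  have hK : Lin.KK D.R (fun _ => 0) (fun _ => 1) v := ⟨hv.cont, fun x hx => ⟨hv.nonneg x hx, hv.le_one x hx⟩⟩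
  refine ⟨Lin.cgood_of_cbd (hc.cbd v hK), ⟨fun x hx => ?_, hv.cont⟩, fun x hx => ?_⟩
  · exact ((hv.smooth.contDiffAt ((isOpen_Ann D.R).mem_nhds hx))).of_le (by
      rw [show (2 : WithTop ℕ∞) = ((2 : ℕ∞) : WithTop ℕ∞) from rfl]
      exact WithTop.coe_le_coe.2 le_top)
  · have h1 := hv.solves x hx
    have h4 := Lin.p4_eq hD v (x := x) hx.1.le
    unfold Lc
    simp only [h4.2.1, h4.2.2]
    unfold tr2 D2 D1 at h1
    linarith

/-- Strict bounds inside. -/
theorem sol_between {D : OpData} (hD : D.Ok) {v : E3 → ℝ} (hv : W.Sol D v) : ∀ x ∈ Ann D.R, 0 < v x ∧ v x < 1 := by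
  obtain ⟨lam, B, hlam, hB, h⟩ := sol_lin hD
  obtain ⟨h1, h2, h3⟩ := h v hv
  exact between hD.one_lt_R hlam hB h1 h2 h3 hv.one hv.zero

theorem sol_wmax {D : OpData} (hD : D.Ok) {v : E3 → ℝ} (hv : W.Sol D v) {U : Set E3} (hU : IsOpen U) (hUs : U ⊆ Ann D.R)
    {M : ℝ} (h0 : ∀ x ∈ frontier U, v x ≤ M) : ∀ x ∈ U, v x ≤ M := by
  obtain ⟨lam, B, hlam, hB, h⟩ := sol_lin hD
  obtain ⟨h1, h2, h3⟩ := h v hv
  exact weak_max_open hD.one_lt_R hlam hB h1 h2 (fun x hx => (h3 x hx).ge) hU hUs h0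

theorem sol_wmin {D : OpData} (hD : D.Ok) {v : E3 → ℝ} (hv : W.Sol D v) {U : Set E3} (hU : IsOpen U) (hUs : U ⊆ Ann D.R)
    {M : ℝ} (h0 : ∀ x ∈ frontier U, M ≤ v x) : ∀ x ∈ U, M ≤ v x := by
  obtain ⟨lam, B, hlam, hB, h⟩ := sol_lin hD
  obtain ⟨h1, h2, h3⟩ := h v hv
  exact weak_min_open hD.one_lt_R hlam hB h1 h2 (fun x hx => (h3 x hx).le) hU hUs h0

namespace Par

variable {P : Par} {v : E3 → ℝ}

theorem v_pos_lt (hD : P.op.Ok) (hv : W.Sol P.op v) : ∀ x ∈ Ann P.R, 0 < v x ∧ v x < 1 :=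
  sol_between hD hv

/-- The frontier of a subset of the annulus. -/
theorem frontier_sub {R : ℝ} {U : Set E3} (hUs : U ⊆ Ann R) : frontier U ⊆ cAnn R :=
  frontier_subset_closure.trans (closure_minimal (hUs.trans (Ann_subset R)) (isCompact_cAnn R).isClosed)

/-- `θ` is a level function in the sense of H44G. -/
theorem isLevel (h : P.Ok) (hD : P.op.Ok) (hκ : 0 < P.kap v) (hv : W.Sol P.op v) :
    Pool.Agent.H44G.IsLevel (P.th v) 0 (P.T v) P.R := by
  have hL := levFun h hκ hv
  have he := h.expo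
  have hanti := W.FF_anti he hκ
  have hnn : ∀ x ∈ cAnn P.R, v x ∈ Ici (0:ℝ) := fun x hx => hv.nonneg x hx
  refine
    { one_lt := hL.one_lt
      lt := hL.pos
      cont := hL.cont
      smooth := hL.smooth
      inner := hL.inner
      outer := hL.outer
      mem := ?_
      wmin := ?_
      wmax := ?_ }
  · intro x hx
    have h1 := v_pos_lt hD hv x hx
    constructor
    · have h2 : W.FF P.p (P.kap v) 1 < W.FF P.p (P.kap v) (v x) :=
        hanti (show v x ∈ Ici (0:ℝ) from h1.1.le) (mem_Ici.2 zero_le_one) h1.2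
      rw [W.FF_one] at h2
      exact h2
    · exact hanti (mem_Ici.2 le_rfl) (show v x ∈ Ici (0:ℝ) from h1.1.le) h1.1
  · intro U hU hUs M hM x hx
    by_contra hcon
    have hcon : P.th v x < M := not_le.1 hcon
    have hxc : x ∈ cAnn P.R := Ann_subset P.R (hUs hx)
    have hlt : ∀ y ∈ frontier U, v y < v x := by
      intro y hy
      by_contra hc
      have hc : v x ≤ v y := not_lt.1 hc
      have h2 : P.th v y ≤ P.th v x := hanti.antitoneOn (hnn x hxc) (hnn y (frontier_sub hUs hy)) hc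
      linarith [hM y hy]
    by_cases hne : (frontier U).Nonempty
    · have hcomp : IsCompact (frontier U) := (isCompact_cAnn P.R).of_isClosed_subset isClosed_frontier (frontier_sub hUs)
      obtain ⟨y, hy, hmax⟩ := hcomp.exists_isMaxOn hne (hv.cont.mono (frontier_sub hUs))
      have h3 := sol_wmax hD hv hU hUs (M := v y) (fun z hz => hmax hz) x hx
      exact absurd h3 (not_le.2 (hlt y hy))
    · have h3 := sol_wmax hD hv hU hUs (M := v x - 1) (fun z hz => absurd ⟨z, hz⟩ hne) x hx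
      linarith
  · intro U hU hUs M hM x hx
    by_contra hcon
    have hcon : M < P.th v x := not_le.1 hcon
    have hxc : x ∈ cAnn P.R := Ann_subset P.R (hUs hx)
    have hlt : ∀ y ∈ frontier U, v x < v y := by
      intro y hy
      by_contra hc
      have hc : v y ≤ v x := not_lt.1 hc
      have h2 : P.th v x ≤ P.th v y := hanti.antitoneOn (hnn y (frontier_sub hUs hy)) (hnn x hxc) hc
      linarith [hM y hy]
    by_cases hne : (frontier U).Nonempty
    · have hcomp : IsCompact (frontier U) := (isCompact_cAnn P.R).of_isClosed_subset isClosed_frontier (frontier_sub hUs)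
      obtain ⟨y, hy, hmin⟩ := hcomp.exists_isMinOn hne (hv.cont.mono (frontier_sub hUs))
      have h3 := sol_wmin hD hv hU hUs (M := v y) (fun z hz => hmin hz) x hx
      exact absurd h3 (not_le.2 (hlt y hy))
    · have h3 := sol_wmin hD hv hU hUs (M := v x + 1) (fun z hz => absurd ⟨z, hz⟩ hne) x hx
      linarith

end Par

end UMB
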