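import Pool.Agent.Lib.UMB.Asm.Moll
import Pool.Agent.Lib.UMB.Asm.Surf
import Pool.Agent.Lib.UMB.Asm.Flux
import Pool.Agent.Lib.UMB.AREA.Asm
import Pool.Agent.Lib.UMB.BR.Top
import Pool.Agent.Lib.UMB.Lin.P9
import Pool.Agent.Lib.UMB.E.Top

set_option autoImplicit false

/-!
# UMB, assembly: the top theorems of the blocks and `core`

`exists_sol` (section 2a), `op_ok`, `energy` (blocks FZ, S1, G, B, E), `flux` (blocks B, W, F, R), `area_fin` (block AREA),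
`exists_surface` (trivial surface). `core'` is the statement `core`.
-/

open Filter Topology Set MeasureTheory
open scoped ContDiff

namespace UMB

open Pool.Agent.Lib.PenroseSph (E3 Tens pd gradNorm admFlux)

/-- 2a (helper50, helper74, helper81). -/
theorem exists_sol' (D : OpData) (hD : D.Ok) : ∃ v : E3 → ℝ, W.Sol D v :=
  Lin.exists_sol D hD

/-- The concrete operator is admissible. -/
theorem op_ok' {g k : Tens} {a K η0 R0 δ' : ℝ} {η : E3 → ℝ} (hg : AF g a) (hk : Adm g k a K η η0 R0 δ')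
    {c0 q R1 R eps d : ℝ} {eta : E3 → ℝ} (hP : (mkP g k a c0 q R1 R eps d eta).Ok) :
    (mkP g k a c0 q R1 R eps d eta).op.Ok :=
  BR.op_ok hg hk hP

/-- There is an enclosing surface. -/
theorem exists_surface' {g : Tens} {a : ℝ} (hg : AF g a) : ∃ (F : Set E3) (c : ℝ), Encloses F ∧ AreaLE g a F c :=
  exists_surface hg

/-- There is a mollifier. -/
theorem exists_moll' : ∃ eta : E3 → ℝ, Moll eta :=
  exists_moll

/-- **ENERGY** (S4.md 4.7, helper9; uses FZ2, S1, G, DEC, B2, E1, E2). Constants in the order of choices. -/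
theorem energy' {g : Tens} {a E : ℝ} (hg : AF g a) (hE : Tendsto (admFlux g) atTop (𝓝 E)) (K : ℝ) {Φ : ℝ} (hΦ : 0 ≤ Φ) :
    ∃ c00 : ℝ, 0 ≤ c00 ∧ ∀ c0 : ℝ, c00 ≤ c0 → ∀ q : ℝ, 0 < q → q < 1 → ∃ C : ℝ, 0 < C ∧
      ∀ᶠ R1 in atTop, ∀ τ : ℝ, 0 < τ → ∀ R0 : ℝ, ∀ᶠ R in atTop, ∃ L : ℝ, 1 ≤ L ∧
        ∀ (k : Tens) (η : E3 → ℝ) (η0 φ : ℝ), 0 ≤ φ → φ ≤ Φ → Adm g k a K η η0 R0 φ → wil g k ≤ 16 * Real.pi →
          ∀ eta : E3 → ℝ, Moll eta →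
          ∀ᶠ eps in 𝓝[>] (0 : ℝ), ∀ᶠ d in 𝓝[>] (0 : ℝ), (mkP g k a c0 q R1 R eps d eta).Ok →
            ∀ v : E3 → ℝ, W.Sol (mkP g k a c0 q R1 R eps d eta).op v →
              (mkP g k a c0 q R1 R eps d eta).D v ≤ C * (1 + L * errN η 0 R) ∧
              (mkP g k a c0 q R1 R eps d eta).CC v * (4 * Real.pi - wil g k / 4 - C / R1) ≤
                8 * Real.pi * E + φ + τ + L * errN η 0 R := by
  exact UMB.E.energy hg hE K hΦ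

/-- **FLUX** (S4.md 5.6, 6.3 - 6.5, 7.4, helper9, helper70, helper4): everything `area_fin` needs, with an error `φ`. -/
theorem flux' {g : Tens} {a : ℝ} (hg : AF g a) (K : ℝ) :
    ∃ c00 : ℝ, 0 ≤ c00 ∧ ∀ c0 : ℝ, c00 ≤ c0 → ∀ q : ℝ, 0 < q → q < 1 → ∀ Dm M φ : ℝ, 0 < φ →
      ∀ᶠ R1 in atTop, ∀ R0 : ℝ, ∀ᶠ R in atTop,
        ∀ (k : Tens) (η : E3 → ℝ) (η0 δ' : ℝ), 0 ≤ δ' → Adm g k a K η η0 R0 δ' → ∀ eta : E3 → ℝ, Moll eta →
          ∀ᶠ eps in 𝓝[>] (0 : ℝ), ∀ᶠ d in 𝓝[>] (0 : ℝ), (mkP g k a c0 q R1 R eps d eta).Ok →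
            ∀ v : E3 → ℝ, W.Sol (mkP g k a c0 q R1 R eps d eta).op v →
              (mkP g k a c0 q R1 R eps d eta).D v ≤ Dm → (mkP g k a c0 q R1 R eps d eta).CC v ≤ M →
              0 ≤ (mkP g k a c0 q R1 R eps d eta).CC v ∧
              LevFun ((mkP g k a c0 q R1 R eps d eta).th v) R ((mkP g k a c0 q R1 R eps d eta).T v) ∧
              q ^ 2 / 8 < (mkP g k a c0 q R1 R eps d eta).T v ∧
              (∀ᵐ τ : ℝ, 0 < τ → τ < (mkP g k a c0 q R1 R eps d eta).T v → ∀ x : E3, 1 < ‖x‖ → ‖x‖ < R →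
                (mkP g k a c0 q R1 R eps d eta).th v x = τ → fderiv ℝ ((mkP g k a c0 q R1 R eps d eta).th v) x ≠ 0) ∧
              (∃ B : ℝ, ∀ x : E3, 1 < ‖x‖ → ‖x‖ < R → gradNorm g ((mkP g k a c0 q R1 R eps d eta).th v) x ≤ B) ∧
              (∀ x : E3, 1 < ‖x‖ → ‖x‖ < R → (mkP g k a c0 q R1 R eps d eta).th v x < q ^ 2 / 8 →
                ‖x‖ ≤ Real.exp 2 * (1 + 100 * c0 / q)) ∧
              BT g ((mkP g k a c0 q R1 R eps d eta).th v) R q (q ^ 2 / 16) (q ^ 2 / 8) ≤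
                (q ^ 2 / 16) * (Real.exp ((2 - q) * (q ^ 2 / 8)) *
                  (4 * Real.pi * (mkP g k a c0 q R1 R eps d eta).CC v ^ (2 - q) + φ)) :=
  flux'' hg K

/-- **AREA** (helper70). -/
theorem area_fin' {g : Tens} {a : ℝ} (hg : AF g a) {C0 M κ : ℝ} (hC0 : 0 ≤ C0) (hM : 0 ≤ M) (hκ : 0 < κ) :
    ∃ q0 : ℝ, 0 < q0 ∧ q0 ≤ 1 ∧ ∀ q : ℝ, 0 < q → q ≤ q0 → ∃ φ0 : ℝ, 0 < φ0 ∧
      ∀ (R T : ℝ) (θ : E3 → ℝ) (Cc φ : ℝ), LevFun θ R T → q ^ 2 / 8 < T →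
        (∀ᵐ τ : ℝ, 0 < τ → τ < T → ∀ x : E3, 1 < ‖x‖ → ‖x‖ < R → θ x = τ → fderiv ℝ θ x ≠ 0) →
        (∃ B : ℝ, ∀ x : E3, 1 < ‖x‖ → ‖x‖ < R → gradNorm g θ x ≤ B) →
        (∀ x : E3, 1 < ‖x‖ → ‖x‖ < R → θ x < q ^ 2 / 8 → ‖x‖ ≤ Real.exp 2 * (1 + 100 * C0 / q)) →
        0 ≤ Cc → Cc ≤ M → φ ≤ φ0 →
        BT g θ R q (q ^ 2 / 16) (q ^ 2 / 8) ≤
          (q ^ 2 / 16) * (Real.exp ((2 - q) * (q ^ 2 / 8)) * (4 * Real.pi * Cc ^ (2 - q) + φ)) →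
        ∃ (F : Set E3) (c : ℝ), Encloses F ∧ AreaLE g a F c ∧ c ≤ 4 * Real.pi * Cc ^ 2 + κ :=
  AREA.area_win hg hC0 hM hκ

/-- The quadratic arithmetic of the last step. -/
theorem last_step {E φ δ μ u Cc M κ c x : ℝ} (hδ : 0 < δ) (hμ : 0 < μ) (hμ1 : μ ≤ 4 * Real.pi) (hu : u * M ≤ δ)
    (hu0 : 0 ≤ u) (hκ : κ = 4 * Real.pi * (δ ^ 2 / 4)) (hCc : 0 ≤ Cc) (hM : Cc ≤ M)
    (h1 : Cc * (μ - u) ≤ 8 * Real.pi * E + φ + δ + x) (hc : c ≤ 4 * Real.pi * Cc ^ 2 + κ) (hx : 0 ≤ x) :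
    Real.sqrt (c / (16 * Real.pi)) * (μ / (4 * Real.pi)) ≤ E + φ / (8 * Real.pi) + δ + x := by
  have hpi := Real.pi_pos
  have hpi3 := Real.pi_gt_three
  have h2 : Real.sqrt (c / (16 * Real.pi)) ≤ Cc / 2 + δ / 4 := by
    apply Real.sqrt_le_iff.2
    refine ⟨by positivity, ?_⟩
    rw [div_le_iff₀ (by positivity)]
    rw [hκ] at hc
    nlinarith [mul_nonneg hCc hδ.le]
  have h3 : μ / (4 * Real.pi) ≤ 1 := by rw [div_le_one (by positivity)]; exact hμ1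
  have h3' : 0 ≤ μ / (4 * Real.pi) := by positivity
  have h4 : Cc * μ ≤ 8 * Real.pi * E + φ + 2 * δ + x := by
    have h5 : u * Cc ≤ u * M := mul_le_mul_of_nonneg_left hM hu0
    nlinarith
  have h5 : Cc / 2 * (μ / (4 * Real.pi)) ≤ E + φ / (8 * Real.pi) + (2 * δ + x) / (8 * Real.pi) := by
    have e1 : Cc / 2 * (μ / (4 * Real.pi)) = Cc * μ / (8 * Real.pi) := by field_simp; ring
    have e2 : E + φ / (8 * Real.pi) + (2 * δ + x) / (8 * Real.pi) = (8 * Real.pi * E + φ + 2 * δ + x) / (8 * Real.pi) := by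
      field_simp; ring
    rw [e1, e2]
    exact div_le_div_of_nonneg_right h4 (by positivity)
  have h6 : (2 * δ + x) / (8 * Real.pi) ≤ (2 * δ + x) / 8 := by
    apply div_le_div_of_nonneg_left (by positivity) (by norm_num); linarith
  have h7 : δ / 4 * (μ / (4 * Real.pi)) ≤ δ / 4 * 1 := mul_le_mul_of_nonneg_left h3 (by positivity)
  have h8 := mul_le_mul_of_nonneg_right h2 h3'
  have h9 : (Cc / 2 + δ / 4) * (μ / (4 * Real.pi)) = Cc / 2 * (μ / (4 * Real.pi)) + δ / 4 * (μ / (4 * Real.pi)) := by ring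
  linarith

end UMB
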